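import Pool.Agent.Q144.GEi

set_option autoImplicit false

namespace Pool.Agent.Results.MP_6a7af9_co.GreedyFails

open Q144 Q144.GE

/-- The greedy procedure can fail to maximise the total perimeter, already for three pieces:
for the pentagon `C` with vertices `(0,0), (6,0), (6,3), (3,7/2), (0,2)` the maximum total
perimeter over convex equipartitions into three pieces is attained, every equipartition
attaining it is non-crossing, and there is a greedy partition (which is an equipartition)
whose total perimeter is strictly smaller. -/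
theorem result :
    ∃ (C : Set (EuclideanSpace ℝ (Fin 2))) (n : ℕ),
      C = {x | 0 ≤ x 0 ∧ x 0 ≤ 6 ∧ 0 ≤ x 1 ∧ x 1 ≤ 2 + x 0 / 2 ∧ x 1 ≤ 4 - x 0 / 6} ∧ n = 3 ∧
      IsBody C ∧ 2 ≤ n ∧
      (∃ P : Fin n → Set (EuclideanSpace ℝ (Fin 2)), IsMax C n P) ∧
      (∀ P : Fin n → Set (EuclideanSpace ℝ (Fin 2)), IsMax C n P → NonCrossing C P) ∧
      ∃ G : Fin n → Set (EuclideanSpace ℝ (Fin 2)), IsGreedy C n G ∧ IsEqui C n G ∧
        ∀ P : Fin n → Set (EuclideanSpace ℝ (Fin 2)), IsMax C n P → total G < total P := by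
  obtain ⟨G, h1, h2, h3⟩ := greedy_fails
  exact ⟨Cg, 3, rfl, rfl, body_Cg, by norm_num, ⟨_, isMax_A⟩, fun P hP => max_nonCrossing hP,
    G, h1, h2, fun P hP => h3.trans_le (max_total hP)⟩

end Pool.Agent.Results.MP_6a7af9_co.GreedyFails
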